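import Pool.Agent.H14R3.Aug.Stmts

/-!
# Uniform tails on a finite-dimensional space
-/

set_option autoImplicit false

open scoped ENNReal InnerProductSpace Topology
open Filter

namespace Pool.Agent.H783R3.Aug

open Pool.Agent.H14R3.Aug

theorem summable_sq {ι : Type} (f : H ι) : Summable fun g => ‖f g‖ ^ 2 := by
  have h1 := (lp.memℓp f).summable (by norm_num)
  simpa using h1

theorem Tail_proof : Tail := by
  classical
  intro ι ν M hM
  let b := stdOrthonormalBasis ℂ M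
  let F : ι → ℝ := fun g => ∑ i, ‖(b i : H ι) g‖ ^ 2
  have hF : Summable F := summable_sum (fun i _ => summable_sq (b i : H ι))
  have hF0 : ∀ g, 0 ≤ F g := fun g => Finset.sum_nonneg (fun i _ => sq_nonneg _)
  have hle : ∀ e ∈ M, ∀ g, ‖e g‖ ^ 2 ≤ ‖e‖ ^ 2 * F g := by
    intro e he g
    have h1 := b.sum_repr (⟨e, he⟩ : M)
    have h2 : e = ∑ i, b.repr ⟨e, he⟩ i • (b i : H ι) := by
      have := congrArg (Subtype.val : M → H ι) h1
      rw [Submodule.coe_sum] at this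
      simpa using this.symm
    have h3 : e g = ∑ i, b.repr ⟨e, he⟩ i * (b i : H ι) g := by
      conv_lhs => rw [h2]
      rw [lp.coeFn_sum, Finset.sum_apply]
      rfl
    have h4 : ‖b.repr ⟨e, he⟩‖ = ‖e‖ := by
      rw [LinearIsometryEquiv.norm_map]
      rfl
    have h5 : ∑ i, ‖b.repr ⟨e, he⟩ i‖ ^ 2 = ‖e‖ ^ 2 := by
      rw [← h4, EuclideanSpace.norm_sq_eq]
    have h6 : ‖e g‖ ≤ ∑ i, ‖b.repr ⟨e, he⟩ i‖ * ‖(b i : H ι) g‖ := by
      rw [h3]
      refine le_trans (norm_sum_le _ _) (le_of_eq ?_)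
      exact Finset.sum_congr rfl (fun i _ => norm_mul _ _)
    calc ‖e g‖ ^ 2 ≤ (∑ i, ‖b.repr ⟨e, he⟩ i‖ * ‖(b i : H ι) g‖) ^ 2 :=
          pow_le_pow_left₀ (norm_nonneg _) h6 2
      _ ≤ (∑ i, ‖b.repr ⟨e, he⟩ i‖ ^ 2) * ∑ i, ‖(b i : H ι) g‖ ^ 2 :=
          Finset.sum_mul_sq_le_sq_mul_sq _ _ _
      _ = ‖e‖ ^ 2 * F g := by rw [h5]
  have h1 := tendsto_tsum_compl_atTop_zero F
  have h2 : ∀ᶠ s : Finset ι in atTop, ∑' a : {x // x ∉ s}, F a < 1 / 2 :=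
    h1.eventually (gt_mem_nhds (by norm_num))
  obtain ⟨s, hs⟩ := h2.exists
  refine ⟨s.sup ν + 1, fun e he => ?_⟩
  have h3 : ∀ g, Set.indicator {g | s.sup ν + 1 ≤ ν g} (fun g => ‖e g‖ ^ 2) g ≤
      ‖e‖ ^ 2 * Set.indicator {g | g ∉ s} F g := by
    intro g
    by_cases hg : s.sup ν + 1 ≤ ν g
    · have hgs : g ∉ s := by
        intro h
        have := Finset.le_sup (f := ν) h
        omega
      rw [Set.indicator_of_mem (show g ∈ {g | s.sup ν + 1 ≤ ν g} from hg),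
        Set.indicator_of_mem (show g ∈ {g | g ∉ s} from hgs)]
      exact hle e he g
    · rw [Set.indicator_of_notMem (show g ∉ {g | s.sup ν + 1 ≤ ν g} from hg)]
      refine mul_nonneg (sq_nonneg _) (Set.indicator_nonneg (fun g _ => hF0 g) g)
  have h4 : Summable (fun g => ‖e‖ ^ 2 * Set.indicator {g | g ∉ s} F g) :=
    (hF.indicator _).mul_left _
  have h5 : Summable (fun g => Set.indicator {g | s.sup ν + 1 ≤ ν g} (fun g => ‖e g‖ ^ 2) g) :=
    (summable_sq e).indicator _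
  have h6 : ∑' g, Set.indicator {g | g ∉ s} F g = ∑' a : {x // x ∉ s}, F a :=
    (tsum_subtype {g | g ∉ s} F).symm
  calc ∑' g, Set.indicator {g | s.sup ν + 1 ≤ ν g} (fun g => ‖e g‖ ^ 2) g
      ≤ ∑' g, ‖e‖ ^ 2 * Set.indicator {g | g ∉ s} F g := h5.tsum_le_tsum h3 h4
    _ = ‖e‖ ^ 2 * ∑' a : {x // x ∉ s}, F a := by rw [tsum_mul_left, h6]
    _ ≤ ‖e‖ ^ 2 * (1 / 2) := mul_le_mul_of_nonneg_left hs.le (sq_nonneg _)
    _ = (1/2) * ‖e‖ ^ 2 := by ring

end Pool.Agent.H783R3.Aug
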